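import Pool.Agent.helper47.SC.Spec

/-!
# Row GGB: elementary properties of `G`, `B`
-/

set_option autoImplicit false

open scoped Topology ContDiff
open Set Filter Metric MeasureTheory
open Pool.Agent.helper90.KMMP (levi hess)

namespace Pool.Agent.SC

theorem GGB_succ (s : ℕ → C3) (m : ℕ → ℕ) (k : ℕ) (p : C2) :
    ‖GG s m (k + 1) p‖ = ‖BB s m k p‖ * ‖p.2 - (s k).1‖ := by
  change ‖(GG s m k p) ^ (m k) * (p.2 - (s k).1)‖ = _
  rw [norm_mul]
  rfl

theorem GGB_BB (s : ℕ → C3) (m : ℕ → ℕ) (k : ℕ) (p : C2) :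
    ‖BB s m k p‖ = ‖GG s m k p‖ ^ (m k) := by
  change ‖(GG s m k p) ^ (m k)‖ = _
  rw [norm_pow]

theorem GGB : GGB_stmt := by
  intro s m hm hs
  have hd : ∀ (k : ℕ) (p : C2), ‖p.2‖ < 1 / 4 → ‖p.2 - (s k).1‖ ≤ 1 / 2 := by
    intro k p hp
    have := norm_sub_le p.2 (s k).1
    have := hs k
    linarith
  have c1 : ∀ (k : ℕ) (p : C2), ‖p.2‖ < 1 / 4 → ‖GG s m k p‖ < 1 → ‖GG s m (k + 1) p‖ < 1 := by
    intro k p hp hG
    rw [GGB_succ, GGB_BB]
    have h1 : ‖GG s m k p‖ ^ (m k) ≤ 1 := pow_le_one₀ (norm_nonneg _) hG.le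
    have h2 := hd k p hp
    have h3 : ‖GG s m k p‖ ^ (m k) * ‖p.2 - (s k).1‖ ≤ 1 * (1 / 2) :=
      mul_le_mul h1 h2 (norm_nonneg _) zero_le_one
    linarith
  have c2 : ∀ (k : ℕ) (p : C2), ‖p.2‖ < 1 / 4 →
      ‖BB s m (k + 1) p‖ ≤ (‖BB s m k p‖ / 2) ^ (m (k + 1)) := by
    intro k p hp
    rw [GGB_BB s m (k + 1), GGB_succ]
    apply pow_le_pow_left₀ (by positivity)
    have := mul_le_mul_of_nonneg_left (hd k p hp) (norm_nonneg (BB s m k p))
    linarith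
  have c4a : ∀ (k : ℕ) (p : C2), ‖p.2‖ < 1 / 4 → ‖GG s m k p‖ ≤ ‖p.1‖ ^ (EE m k) := by
    intro k p hp
    induction k with
    | zero =>
      change ‖p.1‖ ≤ ‖p.1‖ ^ 1
      rw [pow_one]
    | succ k ih =>
      rw [GGB_succ, GGB_BB]
      change ‖GG s m k p‖ ^ (m k) * ‖p.2 - (s k).1‖ ≤ ‖p.1‖ ^ (EE m k * m k)
      rw [pow_mul]
      have h1 : ‖GG s m k p‖ ^ (m k) ≤ (‖p.1‖ ^ (EE m k)) ^ (m k) :=
        pow_le_pow_left₀ (norm_nonneg _) ih _
      have h2 := hd k p hp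
      calc ‖GG s m k p‖ ^ (m k) * ‖p.2 - (s k).1‖ ≤ (‖p.1‖ ^ (EE m k)) ^ (m k) * 1 :=
            mul_le_mul h1 (by linarith) (norm_nonneg _) (by positivity)
        _ = _ := mul_one _
  have c6 : ∀ k, ContDiff ℂ ∞ (GG s m k) := by
    intro k
    induction k with
    | zero =>
      change ContDiff ℂ ∞ (fun p : C2 => p.1)
      fun_prop
    | succ k ih =>
      change ContDiff ℂ ∞ (fun p : C2 => (GG s m k p) ^ (m k) * (p.2 - (s k).1))
      fun_prop
  refine ⟨c1, c2, ?_, ?_, ?_, c6, ?_, ?_⟩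
  · intro k p hp hX
    have h1 : 1 ≤ ‖GG s m (k + 1) p‖ := by
      by_contra hcon
      push Not at hcon
      exact hX ⟨hp, k + 1, hcon⟩
    rw [GGB_succ] at h1
    have := mul_le_mul_of_nonneg_left (hd k p hp) (norm_nonneg (BB s m k p))
    linarith
  · intro k p hp
    rw [GGB_BB]
    change ‖GG s m k p‖ ^ (m k) ≤ ‖p.1‖ ^ (EE m k * m k)
    rw [pow_mul]
    exact pow_le_pow_left₀ (norm_nonneg _) (c4a k p hp) _
  · intro k p hp hG j hj
    have hall : ∀ i, ‖GG s m (k + i) p‖ < 1 := by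
      intro i
      induction i with
      | zero => exact hG
      | succ i ih => exact c1 (k + i) p hp ih
    obtain ⟨i, rfl⟩ : ∃ i, j = k + i + 1 := ⟨j - k - 1, by omega⟩
    have h1 := c2 (k + i) p hp
    have h2 : ‖BB s m (k + i) p‖ ≤ 1 := by
      rw [GGB_BB]
      exact pow_le_one₀ (norm_nonneg _) (hall i).le
    have h3 : (‖BB s m (k + i) p‖ / 2) ^ (m (k + i + 1)) ≤ (1 / 2) ^ 10 := by
      calc (‖BB s m (k + i) p‖ / 2) ^ (m (k + i + 1)) ≤ (1 / 2) ^ (m (k + i + 1)) :=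
            pow_le_pow_left₀ (by positivity) (by linarith) _
        _ ≤ (1 / 2) ^ 10 := pow_le_pow_of_le_one (by norm_num) (by norm_num) (hm _)
    have h4 : ((1 : ℝ) / 2) ^ 10 = 1 / 1024 := by norm_num
    rw [h4] at h3
    linarith
  · intro k
    change ContDiff ℂ ∞ (fun p : C2 => (GG s m k p) ^ (m k))
    exact (c6 k).pow _
  · have e : XX s m = {p : C2 | ‖p.2‖ < 1 / 4} ∩ ⋃ k, {p : C2 | ‖GG s m k p‖ < 1} := by
      ext p
      simp only [XX, mem_ofPred_eq, mem_inter_iff, mem_iUnion]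
    rw [e]
    apply IsOpen.inter
    · exact isOpen_lt (by fun_prop) continuous_const
    · apply isOpen_iUnion
      intro k
      exact isOpen_lt (c6 k).continuous.norm continuous_const

end Pool.Agent.SC
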