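import Pool.Agent.helper47.SC.Spec

/-!
# Row LIO: the Liouville theorem for smooth subharmonic functions
-/

set_option autoImplicit false

open scoped Topology ContDiff
open Set Filter Metric MeasureTheory
open Pool.Agent.helper90.KMMP (levi hess)

namespace Pool.Agent.SC

theorem LIO (h1 : LMX_stmt) : LIO_stmt := by
  intro g C hg hl hC
  obtain ⟨z₀, hz₀, hmax⟩ := (isCompact_closedBall (0 : ℂ) 1).exists_isMaxOn
    ⟨0, by simp⟩ hg.continuous.continuousOn
  have hA : ∀ z, g z ≤ g z₀ := by
    intro z
    rcases le_total ‖z‖ 1 with h | h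
    · exact hmax (by simpa using h)
    · refine h1 g (g z₀) C hg hl hC (fun z hz => ?_) z h
      exact hmax (by simp [hz])
  have key : ∀ w, g w = g z₀ := by
    intro w
    have hf : ∀ z : ℂ, AnalyticAt ℂ (fun ζ : ℂ => z₀ + ζ * (w - z₀)) z := fun z => by fun_prop
    have hG : ContDiff ℝ 2 (fun ζ : ℂ => g (z₀ + ζ * (w - z₀))) := by
      apply hg.comp
      fun_prop
    have hav := Pool.Agent.helper90.KMMP.le_circleAverage_of_levi
      (g := fun ζ : ℂ => g (z₀ + ζ * (w - z₀))) (fun z _ => hG.contDiffAt)
      hG.continuous.continuousOn (fun z _ v => by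
        rw [Pool.Agent.helper90.KMMP.levi_comp (u := g) (f := fun ζ : ℂ => z₀ + ζ * (w - z₀))
          hg.contDiffAt (hf z)]
        exact hl _ _)
    have e0 : z₀ + 0 * (w - z₀) = z₀ := by ring
    simp only [e0] at hav
    by_contra hne
    have hlt : g w < g z₀ := lt_of_le_of_ne (hA w) hne
    set φ : ℝ → ℝ := fun θ => g z₀ - g (z₀ + circleMap 0 1 θ * (w - z₀)) with hφ
    have hφc : Continuous φ := by
      have h2 : Continuous fun θ : ℝ => circleMap (0 : ℂ) 1 θ := continuous_circleMap 0 1
      have h3 : Continuous g := hg.continuous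
      fun_prop
    have hpos : 0 < ∫ θ in (0 : ℝ)..(2 * Real.pi), φ θ := by
      refine intervalIntegral.integral_pos (by positivity) hφc.continuousOn
        (fun x _ => sub_nonneg.2 (hA _)) ⟨0, ⟨le_rfl, by positivity⟩, ?_⟩
      have e1 : z₀ + circleMap 0 1 0 * (w - z₀) = w := by simp [circleMap]
      simp only [hφ]
      rw [e1]
      linarith
    have hint : IntervalIntegrable (fun θ : ℝ => g (z₀ + circleMap 0 1 θ * (w - z₀)))
        volume 0 (2 * Real.pi) := by
      apply Continuous.intervalIntegrable
      have h2 : Continuous fun θ : ℝ => circleMap (0 : ℂ) 1 θ := continuous_circleMap 0 1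
      have h3 : Continuous g := hg.continuous
      fun_prop
    have e2 : ∫ θ in (0 : ℝ)..(2 * Real.pi), φ θ = 2 * Real.pi * g z₀ -
        ∫ θ in (0 : ℝ)..(2 * Real.pi), g (z₀ + circleMap 0 1 θ * (w - z₀)) := by
      rw [hφ, intervalIntegral.integral_sub intervalIntegrable_const hint,
        intervalIntegral.integral_const, smul_eq_mul, sub_zero]
    unfold Real.circleAverage at hav
    rw [smul_eq_mul] at hav
    have hpi : 0 < 2 * Real.pi := by positivity
    have h5 := mul_le_mul_of_nonneg_left hav hpi.le
    rw [← mul_assoc, mul_inv_cancel₀ hpi.ne', one_mul] at h5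
    rw [e2] at hpos
    linarith
  intro z w
  rw [key z, key w]

end Pool.Agent.SC
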