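import Pool.Agent.helper82.SC.SpecB

/-! sp: Cardy part, modules BC, EQ, BA (consequences of the one-arm bound). -/

namespace Pool.Agent.helper82.SC

open Relation Filter Topology

theorem BC_arm (hARM : ARM_stmt) (ε : ℝ) (hε : 0 < ε) : ∃ t : ℝ, 0 < t ∧ t ≤ 1 ∧
    ∀ (U : Finset V) (x : ℂ) (r R : ℝ), 1 ≤ r → 0 < R → r ≤ t * R → prob U (ArmE x r R) ≤ ε := by
  obtain ⟨C, a, ha, hC, h⟩ := hARM
  have hq : 0 < ε / (C + 1) := by positivity
  refine ⟨min 1 ((ε / (C + 1)) ^ (1 / a)), lt_min one_pos (Real.rpow_pos_of_pos hq _),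
    min_le_left _ _, ?_⟩
  intro U x r R hr hR hrR
  have ht1 : min 1 ((ε / (C + 1)) ^ (1 / a)) ≤ 1 := min_le_left _ _
  have hrR' : r ≤ R := hrR.trans (by nlinarith)
  refine (h U x r R hr hrR').trans ?_
  have h1 : r / R ≤ (ε / (C + 1)) ^ (1 / a) := by
    rw [div_le_iff₀ hR]
    exact hrR.trans (mul_le_mul_of_nonneg_right (min_le_right _ _) hR.le)
  have h2 : (r / R) ^ a ≤ ε / (C + 1) := by
    calc (r / R) ^ a ≤ ((ε / (C + 1)) ^ (1 / a)) ^ a :=
          Real.rpow_le_rpow (by positivity) h1 ha.le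
      _ = ε / (C + 1) := by
          rw [← Real.rpow_mul hq.le, one_div, inv_mul_cancel₀ ha.ne', Real.rpow_one]
  calc C * (r / R) ^ a ≤ C * (ε / (C + 1)) := mul_le_mul_of_nonneg_left h2 hC
    _ ≤ (C + 1) * (ε / (C + 1)) := by nlinarith
    _ = ε := by field_simp

theorem BC_FUa (D : Dom) (m : Fin 3) : D.FU (D.a m).1 := ⟨_, D.third m⟩

theorem BC (hAW : AW_stmt) (hAC : AC_stmt) (hARM : ARM_stmt) (hGQ : GQ_stmt) (hGP1 : GP1_stmt) :
    BC_stmt := by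
  intro ε hε
  obtain ⟨t, ht0, ht1, ht⟩ := BC_arm hARM ε hε
  refine ⟨t / 64, by positivity, max 64 (Nat.ceil (2 / (t / 64))), ?_⟩
  intro n hn D hD m x hx hxm
  have hn1 : 64 ≤ n := le_trans (le_max_left _ _) hn
  have hn2 : 2 / (t / 64) ≤ (n : ℝ) :=
    (Nat.le_ceil _).trans (by exact_mod_cast le_trans (le_max_right _ _) hn)
  set δ := t / 64 with hδ
  have hδ0 : 0 < δ := by positivity
  have hδ1 : δ ≤ 1 / 64 := by rw [hδ]; linarith
  have hnr : (64 : ℝ) ≤ n := by exact_mod_cast hn1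
  have hδn : 2 ≤ δ * n := by
    rw [div_le_iff₀ hδ0] at hn2
    linarith
  have hδn' : δ * n ≤ 1 / 64 * n := mul_le_mul_of_nonneg_right hδ1 (by linarith)
  obtain ⟨-, -, hGa, -, -⟩ := hGP1 n D (by omega) hD
  have h1 : ‖pd x - pd (D.a m)‖ ≤ δ * n + 4 := by
    have e : pd x - pd (D.a m) = (pd x - n * co m) - (pd (D.a m) - n * co m) := by ring
    rw [e]
    exact (norm_sub_le _ _).trans (add_le_add hxm (hGa m))
  have h2 : ∀ w ∈ arc m, (n : ℝ) - δ * n ≤ ‖pd x - n * w‖ := by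
    intro w hw
    have h3 := hGQ.1 m w hw
    have e : (n : ℂ) * (w - co m) = (pd x - n * co m) - (pd x - n * w) := by ring
    have h4 : (n : ℝ) * ‖w - co m‖ ≤ δ * n + ‖pd x - n * w‖ := by
      calc (n : ℝ) * ‖w - co m‖ = ‖(n : ℂ) * (w - co m)‖ := by
            rw [norm_mul, Complex.norm_natCast]
        _ ≤ ‖pd x - n * co m‖ + ‖pd x - n * w‖ := by rw [e]; exact norm_sub_le _ _
        _ ≤ _ := by linarith
    nlinarith
  have h3 := hAW n D (by omega) hD m x (D.a m) ((n : ℝ) - δ * n) hx (BC_FUa D m) h2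
    (by linarith)
  have h4 : prob D.U (ArmE (pd x) (8 * ‖pd x - pd (D.a m)‖ + 8) ((n : ℝ) - δ * n - 8)) ≤ ε := by
    apply ht
    · have := norm_nonneg (pd x - pd (D.a m))
      linarith
    · linarith
    · have e : t = 64 * δ := by rw [hδ]; ring
      have h5 : (n : ℝ) / 2 ≤ (n : ℝ) - δ * n - 8 := by linarith
      calc 8 * ‖pd x - pd (D.a m)‖ + 8 ≤ 8 * (δ * n + 4) + 8 := by linarith
        _ ≤ 64 * δ * ((n : ℝ) / 2) := by nlinarith
        _ ≤ t * ((n : ℝ) - δ * n - 8) := by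
            rw [← e]
            exact mul_le_mul_of_nonneg_left h5 ht0.le
  have h5 := h3.trans h4
  rw [hAC D m] at h5
  have := (abs_le.1 h5).1
  linarith

theorem EQ_nonneg (D : Dom) (j : Fin 3) (z : Dart) : 0 ≤ D.P j z := by
  unfold Dom.P
  positivity

theorem EQ_le (hSUM : SUM_stmt) (D : Dom) (z : Dart) (hz : D.FU z.1) (j m : Fin 3) (hmj : m ≠ j) :
    D.P j z ≤ 1 - D.P m z := by
  have h := hSUM D z hz
  rw [Fin.sum_univ_three] at h
  have h0 := EQ_nonneg D 0 z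
  have h1 := EQ_nonneg D 1 z
  have h2 := EQ_nonneg D 2 z
  fin_cases j <;> fin_cases m <;> simp_all <;> linarith

theorem EQ_Qs (hGP1 : GP1_stmt) (n : ℕ) (hn : 1 ≤ n) (D : Dom) (hD : IsSq D n) (x : Dart)
    (hx : D.FU x.1) : ∃ w ∈ Qs, ‖pd x - n * w‖ ≤ 4 := by
  obtain ⟨hG1, hG2, -, -, -⟩ := hGP1 n D hn hD
  have key : ∀ d, ∃ w ∈ Qs, ‖ps (S x.1 d) - n * w‖ ≤ 4 := by
    intro d
    by_cases h : S x.1 d ∈ D.U
    · obtain ⟨w, hw, h1⟩ := hG1 _ h
      exact ⟨w, hw, h1.trans (by norm_num)⟩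
    · obtain ⟨w, hw, h1⟩ := hG2 x.1 hx d h
      exact ⟨w, hw.1, h1⟩
  obtain ⟨w1, hw1, h1⟩ := key x.2
  obtain ⟨w2, hw2, h2⟩ := key (x.2 + 1)
  refine ⟨(w1 + w2) / 2, ?_, ?_⟩
  · obtain ⟨a1, a2, a3, a4⟩ := hw1
    obtain ⟨b1, b2, b3, b4⟩ := hw2
    have hre : ((w1 + w2) / 2).re = (w1.re + w2.re) / 2 := by simp
    have him : ((w1 + w2) / 2).im = (w1.im + w2.im) / 2 := by simp
    refine ⟨?_, ?_, ?_, ?_⟩
    · rw [hre]; linarith
    · rw [hre]; linarith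
    · rw [him]; linarith
    · rw [him]; linarith
  · have e : pd x - n * ((w1 + w2) / 2) =
        ((ps (S x.1 x.2) - n * w1) + (ps (S x.1 (x.2 + 1)) - n * w2)) / 2 := by
      unfold pd; ring
    rw [e, norm_div]
    have h3 : ‖(2 : ℂ)‖ = 2 := by simp
    rw [h3]
    have := norm_add_le (ps (S x.1 x.2) - n * w1) (ps (S x.1 (x.2 + 1)) - n * w2)
    linarith

theorem EQ (hAW : AW_stmt) (hAB : AB_stmt) (hBC : BC_stmt) (hSUM : SUM_stmt) (hARM : ARM_stmt)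
    (hGQ : GQ_stmt) (hGP1 : GP1_stmt) : EQ_stmt := by
  intro ε hε
  obtain ⟨t, ht0, ht1, ht⟩ := BC_arm hARM ε hε
  obtain ⟨δB, hδB, NB, hB⟩ := hBC ε hε
  obtain ⟨ρ, hρ0, hρ1, hρ2⟩ : ∃ ρ : ℝ, 0 < ρ ∧ ρ ≤ 1 / 8 ∧ 6 * ρ ≤ δB :=
    ⟨min (1 / 8) (δB / 6), lt_min (by norm_num) (by positivity), min_le_left _ _, by
      have := min_le_right (1 / 8) (δB / 6)
      linarith⟩
  have htρ : 0 < t * ρ := mul_pos ht0 hρ0
  refine ⟨t * ρ / 32, by positivity, max (max NB 1) (Nat.ceil (32 / (t * ρ))), ?_⟩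
  intro n hn D hD x y hx hy hxy j
  have hn1 : 1 ≤ n := le_trans (le_trans (le_max_right _ _) (le_max_left _ _)) hn
  have hnB : NB ≤ n := le_trans (le_trans (le_max_left _ _) (le_max_left _ _)) hn
  have hn2 : 32 / (t * ρ) ≤ (n : ℝ) :=
    (Nat.le_ceil _).trans (by exact_mod_cast le_trans (le_max_right _ _) hn)
  have hn0 : (0 : ℝ) < n := by exact_mod_cast hn1
  have h32 : 32 ≤ t * ρ * n := by
    rw [div_le_iff₀ htρ] at hn2
    linarith
  have h32' : 32 ≤ ρ * n := by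
    have : t * (ρ * n) ≤ 1 * (ρ * n) := mul_le_mul_of_nonneg_right ht1 (by positivity)
    nlinarith
  have hr0 := norm_nonneg (pd x - pd y)
  have harm : prob D.U (ArmE (pd x) (8 * ‖pd x - pd y‖ + 8) (ρ * n - 8)) ≤ ε := by
    apply ht
    · linarith
    · linarith
    · have h5 : ρ * n / 2 ≤ ρ * n - 8 := by linarith
      calc 8 * ‖pd x - pd y‖ + 8 ≤ 8 * (t * ρ / 32 * n) + 8 := by linarith
        _ ≤ t * (ρ * n / 2) := by nlinarith
        _ ≤ t * (ρ * n - 8) := mul_le_mul_of_nonneg_left h5 ht0.le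
  have hstr : 8 * ‖pd x - pd y‖ + 8 < ρ * n - 8 := by
    have h6 : t * ρ * n ≤ ρ * n := by
      have : t * (ρ * n) ≤ 1 * (ρ * n) := mul_le_mul_of_nonneg_right ht1 (by positivity)
      nlinarith
    nlinarith
  by_cases hA : ∀ w ∈ arc j, ρ * n ≤ ‖pd x - n * w‖
  · exact (hAW n D hn1 hD j x y (ρ * n) hx hy hA hstr).trans harm
  by_cases hBB : ∀ k, k ≠ j → ∀ w ∈ arc k, ρ * n ≤ ‖pd x - n * w‖
  · exact (hAB n D hn1 hD j x y (ρ * n) hx hy hBB hstr).trans harm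
  push Not at hA hBB
  obtain ⟨u, hu, hu'⟩ := hA
  obtain ⟨k, hkj, v, hv, hv'⟩ := hBB
  obtain ⟨w, hw, hw'⟩ := EQ_Qs hGP1 n hn1 D hD x hx
  obtain ⟨m, hmj, hmk⟩ : ∃ m : Fin 3, m ≠ j ∧ m ≠ k := by
    fin_cases j <;> fin_cases k <;> first | exact ⟨0, by decide, by decide⟩ | exact ⟨1, by decide, by decide⟩ | exact ⟨2, by decide, by decide⟩
  have hdist : ∀ u : ℂ, ‖pd x - n * u‖ < ρ * n → ‖w - u‖ ≤ 2 * ρ := by
    intro u hu
    have e : (n : ℂ) * (w - u) = (pd x - n * u) - (pd x - n * w) := by ring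
    have h4 : (n : ℝ) * ‖w - u‖ ≤ 2 * ρ * n := by
      calc (n : ℝ) * ‖w - u‖ = ‖(n : ℂ) * (w - u)‖ := by
            rw [norm_mul, Complex.norm_natCast]
        _ ≤ ‖pd x - n * u‖ + ‖pd x - n * w‖ := by rw [e]; exact norm_sub_le _ _
        _ ≤ _ := by linarith
    rw [mul_comm] at h4
    exact le_of_mul_le_mul_right h4 hn0
  have hcor := hGQ.2 j k m (Ne.symm hkj) hmj hmk (2 * ρ) (by linarith) w hw u hu v hv
    (hdist u hu') (hdist v hv')
  have hxm : ‖pd x - n * co m‖ ≤ 5 * ρ * n := by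
    have e : pd x - n * co m = (pd x - n * w) + n * (w - co m) := by ring
    have h4 : ‖(n : ℂ) * (w - co m)‖ ≤ n * (2 * (2 * ρ)) := by
      rw [norm_mul, Complex.norm_natCast]
      exact mul_le_mul_of_nonneg_left hcor hn0.le
    rw [e]
    refine (norm_add_le _ _).trans ?_
    nlinarith
  have hym : ‖pd y - n * co m‖ ≤ 6 * ρ * n := by
    have e : pd y - n * co m = (pd x - n * co m) - (pd x - pd y) := by ring
    rw [e]
    refine (norm_sub_le _ _).trans ?_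
    have h6 : t * ρ * n ≤ ρ * n := by
      have : t * (ρ * n) ≤ 1 * (ρ * n) := mul_le_mul_of_nonneg_right ht1 (by positivity)
      nlinarith
    have h7 : ‖pd x - pd y‖ ≤ ρ * n := by nlinarith
    linarith
  have hρn : 6 * ρ * n ≤ δB * n := mul_le_mul_of_nonneg_right hρ2 hn0.le
  have hpx := hB n hnB D hD m x hx (by nlinarith)
  have hpy := hB n hnB D hD m y hy (by linarith)
  have h1 := EQ_le hSUM D x hx j m hmj
  have h2 := EQ_le hSUM D y hy j m hmj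
  have h3 := EQ_nonneg D j x
  have h4 := EQ_nonneg D j y
  rw [abs_le]
  constructor <;> linarith

theorem BA (hEQ : EQ_stmt) (hGP1 : GP1_stmt) (hARC : ARC_stmt) (hPX : PX_stmt) (hAC : AC_stmt)
    (hSUM : SUM_stmt) : BA_stmt := by
  intro ε hε
  obtain ⟨δ, hδ, N, hE⟩ := hEQ ε hε
  refine ⟨δ / 2, by positivity, max (max N 1) (Nat.ceil (16 / δ)), ?_⟩
  intro n hn D hD j x w hx hw hxw
  have hn1 : 1 ≤ n := le_trans (le_trans (le_max_right _ _) (le_max_left _ _)) hn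
  have hnN : N ≤ n := le_trans (le_trans (le_max_left _ _) (le_max_left _ _)) hn
  have hn2 : 16 / δ ≤ (n : ℝ) :=
    (Nat.le_ceil _).trans (by exact_mod_cast le_trans (le_max_right _ _) hn)
  rw [div_le_iff₀ hδ] at hn2
  obtain ⟨-, -, -, -, hG5⟩ := hGP1 n D hn1 hD
  obtain ⟨p, hp, hpw, hpp⟩ := hG5 j w hw
  have hP : D.P j p ≤ 0 := by
    rcases hpp with ⟨m, hmj, rfl⟩ | ⟨h1, h2, h3, h4⟩
    · have := EQ_le hSUM D (D.a m) hp j m hmj
      rw [hAC D m] at this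
      linarith
    · obtain ⟨part, hpart⟩ := hPX n D hn1 hD j p hp h1 h2 h3 h4
      exact (hARC D j p part hpart).le
  have hxp : ‖pd x - pd p‖ ≤ δ * n := by
    have e : pd x - pd p = (pd x - n * w) - (pd p - n * w) := by ring
    rw [e]
    refine (norm_sub_le _ _).trans ?_
    linarith
  have h := hE n hnN D hD x p hx hp hxp j
  have := (abs_le.1 h).2
  linarith

end Pool.Agent.helper82.SC
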