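import Pool.Agent.helper82.SC.SpecC

/-! sp: Cardy part, modules DN, LB, RS, CARDY. -/

namespace Pool.Agent.helper82.SC

open Relation Filter Topology Complex MeasureTheory
open scoped Interval

theorem DN (hDS : DS_stmt) (hGP1 : GP1_stmt) : DN_stmt := by
  intro n hn w hw
  obtain ⟨D, hD⟩ := hDS n hn
  obtain ⟨-, -, -, h4, -⟩ := hGP1 n D hn hD
  obtain ⟨x, hx, hxw⟩ := h4 w hw
  refine ⟨x, ?_, hxw⟩
  obtain ⟨d, hd⟩ := hx
  rw [hD.1] at hd
  exact ⟨d, hd⟩

theorem LB_co (m : Fin 3) : co m ∈ Qs := by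
  fin_cases m <;> simp [co, Qs]

theorem LB (hDN : DN_stmt) : LB_stmt := by
  intro P U h hP hL
  obtain ⟨hU, -, hlim⟩ := hL
  have hge : ∀ N : ℕ, ∀ᶠ n in (U : Filter ℕ), N ≤ n := fun N => hU (eventually_ge_atTop N)
  refine ⟨?_, ?_, ?_⟩
  · intro w hw
    have key : ∀ ε : ℝ, 0 < ε → |∑ j, h j w - 1| ≤ ε := by
      intro ε hε
      obtain ⟨n, hn, hn1⟩ := ((hlim (ε / 3) (by positivity)).and (hge 1)).exists
      obtain ⟨x, hx, hxw⟩ := hDN n hn1 w hw
      have h1 := hP.sum n hn1 x hx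
      have h2 := hn 0 x w hx hw (hxw.trans (by norm_num))
      have h3 := hn 1 x w hx hw (hxw.trans (by norm_num))
      have h4 := hn 2 x w hx hw (hxw.trans (by norm_num))
      rw [Fin.sum_univ_three] at h1 ⊢
      rw [abs_le] at *
      constructor <;> linarith [h2.1, h2.2, h3.1, h3.2, h4.1, h4.2]
    have h0 : |∑ j, h j w - 1| ≤ 0 := le_of_forall_pos_le_add fun ε hε => by
      rw [zero_add]; exact key ε hε
    have := abs_eq_zero.1 (le_antisymm h0 (abs_nonneg _))
    linarith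
  · intro j w hw
    have key : ∀ ε : ℝ, 0 < ε → |h j w| ≤ ε := by
      intro ε hε
      obtain ⟨δ, hδ, N, hN⟩ := hP.ba (ε / 2) (by positivity)
      obtain ⟨n, ⟨hn, hn1⟩, hn2⟩ := (((hlim (ε / 2) (by positivity)).and (hge 1)).and
        (hge (max N (Nat.ceil (4 / δ))))).exists
      obtain ⟨x, hx, hxw⟩ := hDN n hn1 w hw.1
      have h2 := hn j x w hx hw.1 (hxw.trans (by norm_num))
      have h3 : 4 / δ ≤ (n : ℝ) :=
        (Nat.le_ceil _).trans (by exact_mod_cast le_trans (le_max_right _ _) hn2)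
      rw [div_le_iff₀ hδ] at h3
      have h4 := hN n (le_trans (le_max_left _ _) hn2) j x w hx hw (by linarith)
      have h5 := (hP.bd n hn1 j x hx).1
      rw [abs_le] at *
      constructor <;> linarith [h2.1, h2.2]
    have h0 : |h j w| ≤ 0 := le_of_forall_pos_le_add fun ε hε => by
      rw [zero_add]; exact key ε hε
    exact abs_eq_zero.1 (le_antisymm h0 (abs_nonneg _))
  · intro m
    have key : ∀ ε : ℝ, 0 < ε → |h m (co m) - 1| ≤ ε := by
      intro ε hε
      obtain ⟨δ, hδ, N, hN⟩ := hP.bc (ε / 2) (by positivity)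
      obtain ⟨n, ⟨hn, hn1⟩, hn2⟩ := (((hlim (ε / 2) (by positivity)).and (hge 1)).and
        (hge (max N (Nat.ceil (4 / δ))))).exists
      obtain ⟨x, hx, hxw⟩ := hDN n hn1 (co m) (LB_co m)
      have h2 := hn m x (co m) hx (LB_co m) (hxw.trans (by norm_num))
      have h3 : 4 / δ ≤ (n : ℝ) :=
        (Nat.le_ceil _).trans (by exact_mod_cast le_trans (le_max_right _ _) hn2)
      rw [div_le_iff₀ hδ] at h3
      have h4 := hN n (le_trans (le_max_left _ _) hn2) m x hx (by linarith)
      have h5 := (hP.bd n hn1 m x hx).2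
      rw [abs_le] at *
      constructor <;> linarith [h2.1, h2.2]
    have h0 : |h m (co m) - 1| ≤ 0 := le_of_forall_pos_le_add fun ε hε => by
      rw [zero_add]; exact key ε hε
    have := abs_eq_zero.1 (le_antisymm h0 (abs_nonneg _))
    linarith

theorem RS : RS_stmt := by
  intro φ a t ε K ht hε hc hosc
  have hmono : ∀ k : ℕ, k < K → a ≤ a + k * t ∧ a + (k + 1 : ℕ) * t ≤ a + K * t := by
    intro k hk
    constructor
    · have : (0 : ℝ) ≤ k * t := by positivity
      linarith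
    · have h1 : ((k + 1 : ℕ) : ℝ) ≤ K := by exact_mod_cast hk
      have := mul_le_mul_of_nonneg_right h1 ht
      linarith
  have hsub : ∀ k : ℕ, k < K → Set.uIcc (a + k * t) (a + (k + 1 : ℕ) * t) ⊆
      Set.Icc a (a + K * t) := by
    intro k hk
    have h2 : a + k * t ≤ a + (k + 1 : ℕ) * t := by push_cast; linarith
    rw [Set.uIcc_of_le h2]
    exact Set.Icc_subset_Icc (hmono k hk).1 (hmono k hk).2
  have hint : ∀ k < K, IntervalIntegrable φ volume (a + k * t) (a + (k + 1 : ℕ) * t) :=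
    fun k hk => (hc.mono (hsub k hk)).intervalIntegrable
  have h1 : ∫ x in a..(a + K * t), φ x =
      ∑ k ∈ Finset.range K, ∫ x in (a + k * t)..(a + (k + 1 : ℕ) * t), φ x := by
    have := intervalIntegral.sum_integral_adjacent_intervals (μ := volume) (f := φ)
      (a := fun k : ℕ => a + k * t) (n := K) hint
    rw [this]
    simp
  rw [h1, ← Finset.sum_sub_distrib]
  have h2 : ∀ k ∈ Finset.range K, ‖(t : ℂ) * φ (a + k * t) -
      ∫ x in (a + k * t)..(a + (k + 1 : ℕ) * t), φ x‖ ≤ t * ε := by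
    intro k hk
    rw [Finset.mem_range] at hk
    have e1 : (t : ℂ) * φ (a + k * t) =
        ∫ _ in (a + k * t)..(a + (k + 1 : ℕ) * t), φ (a + k * t) := by
      rw [intervalIntegral.integral_const]
      have : a + (k + 1 : ℕ) * t - (a + k * t) = t := by push_cast; ring
      rw [this]
      simp
    rw [e1, ← intervalIntegral.integral_sub (by simp) (hint k hk)]
    have h3 : a + k * t ≤ a + (k + 1 : ℕ) * t := by push_cast; linarith
    have h4 := intervalIntegral.norm_integral_le_of_norm_le_const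
      (f := fun x => φ (a + k * t) - φ x) (a := a + k * t) (b := a + (k + 1 : ℕ) * t) (C := ε)
      (by
        intro x hx
        rw [Set.uIoc_of_le h3] at hx
        have hx' : x ∈ Set.uIcc (a + k * t) (a + (k + 1 : ℕ) * t) := by
          rw [Set.uIcc_of_le h3]
          exact ⟨hx.1.le, hx.2⟩
        refine hosc _ (hsub k hk Set.left_mem_uIcc) x (hsub k hk hx') ?_
        have h5 := hx.1
        have h6 := hx.2
        push_cast at h6
        rw [abs_le]
        constructor <;> linarith)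
    refine h4.trans ?_
    have h5 : |a + (k + 1 : ℕ) * t - (a + k * t)| = t := by
      have : a + (k + 1 : ℕ) * t - (a + k * t) = t := by push_cast; ring
      rw [this, abs_of_nonneg ht]
    rw [h5, mul_comm]
  calc ‖∑ k ∈ Finset.range K, ((t : ℂ) * φ (a + k * t) -
      ∫ x in (a + k * t)..(a + (k + 1 : ℕ) * t), φ x)‖
      ≤ ∑ k ∈ Finset.range K, t * ε := norm_sum_le_of_le _ h2
    _ = K * t * ε := by rw [Finset.sum_const, Finset.card_range, nsmul_eq_mul]; ring

theorem CARDY (hFM : FM_stmt) (hAN : AN_stmt) (hDS : DS_stmt) (hPD : PD_stmt) (hZDB : ZDB_stmt)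
    (hZDW : ZDW_stmt) (hNB : NB_stmt) (hLRX : LRX_stmt) (hSB : SB_stmt) : CARDY_stmt := by
  obtain ⟨P, hP, hPD'⟩ := hFM
  obtain ⟨h1, h2⟩ := hAN P hP
  have h3 : Tendsto (fun n => 1 - P n 2 (zD n)) atTop (𝓝 (1 / 2)) := by
    have := h2.const_sub 1
    convert this using 2
    norm_num
  have key : ∀ n : ℕ, 1 ≤ n → P n 1 (zD n) ≤ prob (Usq n) (LRb n) ∧
      prob (Usq n) (LRb n) ≤ 1 - P n 2 (zD n) := by
    intro n hn
    obtain ⟨D, hD⟩ := hDS n hn
    have hpart := hPD n D hn hD
    have e1 := hPD' n hn D hD 1 (zD n)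
    have e2 := hPD' n hn D hD 2 (zD n)
    have a1 := hZDB D 0 (zD n) partD hpart
    have a2 := hZDW D 0 (zD n) partD hpart
    have a3 := hSB.2.2.2 D.U (XB D 0 partD) (XW D 0 partD) (hNB D 0 (zD n) partD hpart)
    rw [hD.1] at a1 a2 a3
    have a4 : prob (Usq n) (XB D 0 partD) ≤ prob (Usq n) (LRb n) :=
      hSB.2.1 _ _ _ fun s hs h => (hLRX n D hn hD s hs).1 h
    have a5 : prob (Usq n) (LRb n) ≤ prob (Usq n) (XB D 0 partD) :=
      hSB.2.1 _ _ _ fun s hs h => (hLRX n D hn hD s hs).2 h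
    have a1' : D.P 1 (zD n) ≤ prob (Usq n) (XB D 0 partD) := a1
    have a2' : D.P 2 (zD n) ≤ prob (Usq n) (XW D 0 partD) := a2
    rw [e1, e2]
    constructor <;> linarith
  refine tendsto_of_tendsto_of_tendsto_of_le_of_le' h1 h3 ?_ ?_
  · filter_upwards [eventually_ge_atTop 1] with n hn using (key n hn).1
  · filter_upwards [eventually_ge_atTop 1] with n hn using (key n hn).2

end Pool.Agent.helper82.SC
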